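import Pool.Agent.H37.IS.Stm2

set_option autoImplicit false

namespace H99.IS

open H37.IS

theorem HDE_proved (hSRT : S_SRT) (hHBD : S_HBD) : S_HDE := by
  intro ι _ F N c a s i0 hF k p hv hk
  obtain ⟨hp4, hNp, hc1, h9, hva⟩ := hv
  by_cases hA : N + 2 * c ≤ 2 * k + 1
  · exact hSRT ι F N c a s i0 hF k hA
  · have hpc : 36 * c ≤ N := by
      have h1 : 9 * 4 * c ≤ 9 * p * c := by
        apply Nat.mul_le_mul_right
        omega
      omega
    have hB := hHBD ι F N c a s i0 hF (k + 1) p ⟨hp4, hNp, hc1, h9, hva⟩ (by omega) (by omega)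
    obtain ⟨B, hBd⟩ : ∃ B, B = ∑ i ∈ F.erase i0, ch (N - a i) (k + 1) (s i) := ⟨_, rfl⟩
    rw [← hBd] at hB
    have e1 : sumch F N a s (k + 1) = N.choose (k + 1) + B := by
      unfold sumch
      rw [← Finset.add_sum_erase F _ hF.h0, ← hBd, hF.ha0, hF.hs0]
      simp [ch]
    have e2 : N.choose k ≤ sumch F N a s k := by
      unfold sumch
      rw [← Finset.add_sum_erase F _ hF.h0, hF.ha0, hF.hs0]
      simp [ch]
    rw [e1]
    refine le_trans ?_ e2
    have h1 := Nat.choose_succ_right_eq N k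
    have h2 : N.choose (k + 1) * (k + 1) ≤ N.choose k * k := by
      rw [h1]
      exact Nat.mul_le_mul_left _ (by omega)
    have h3 : k * B ≤ N.choose (k + 1) :=
      le_trans (Nat.mul_le_mul_right B (by omega)) hB
    have hk0 : 0 < k := by omega
    have h4 : k * (N.choose (k + 1) + B) ≤ k * N.choose k := by nlinarith
    exact Nat.le_of_mul_le_mul_left h4 hk0

end H99.IS
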